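import Pool.Agent.Helper378.Final

set_option autoImplicit false

/-!
# Chromatic numbers of touching graphs of unit balls in high dimensions
-/

open Finset symmDiff
open Pool.Agent.Helper378.Cube Pool.Agent.Helper378.Final

namespace Pool.Agent.N334.CH

/-- the point of `ℝ^n` with coordinates 0, 1 given by a subset of `Fin k` -/
noncomputable def pt {k : ℕ} (n : ℕ) (x : Finset (Fin k)) : EuclideanSpace ℝ (Fin n) :=
  WithLp.toLp 2 (fun j => if ∃ i ∈ x, i.val = j.val then 1 else 0)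

lemma dist_pt {k n : ℕ} (h : k ≤ n) (x y : Finset (Fin k)) :
    dist (pt n x) (pt n y) = Real.sqrt ((x ∆ y).card) := by
  rw [EuclideanSpace.dist_eq]
  congr 1
  have h1 : ∀ j : Fin n, dist ((pt n x) j) ((pt n y) j) ^ 2 =
      if ∃ i ∈ x ∆ y, i.val = j.val then 1 else 0 := by
    intro j
    have hx : (pt n x) j = if ∃ i ∈ x, i.val = j.val then 1 else 0 := rfl
    have hy : (pt n y) j = if ∃ i ∈ y, i.val = j.val then 1 else 0 := rfl
    rw [hx, hy, Real.dist_eq]
    by_cases hj : j.val < k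
    · have e : ∀ s : Finset (Fin k), (∃ i ∈ s, i.val = j.val) ↔ (⟨j.val, hj⟩ : Fin k) ∈ s := by
        intro s
        constructor
        · rintro ⟨i, hi, hij⟩
          have : i = ⟨j.val, hj⟩ := Fin.ext hij
          rwa [this] at hi
        · intro hi; exact ⟨_, hi, rfl⟩
      simp only [e]
      simp only [Finset.mem_symmDiff]
      by_cases h1 : (⟨j.val, hj⟩ : Fin k) ∈ x <;> by_cases h2 : (⟨j.val, hj⟩ : Fin k) ∈ y <;> simp [h1, h2]
    · have e : ∀ s : Finset (Fin k), ¬ (∃ i ∈ s, i.val = j.val) := by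
        rintro s ⟨i, -, hij⟩
        exact hj (hij ▸ i.isLt)
      simp only [e, if_false]
      simp
  simp only [h1]
  rw [Finset.sum_ite, Finset.sum_const_zero, add_zero, Finset.sum_const, nsmul_eq_mul, mul_one]
  congr 1
  symm
  apply Finset.card_bij (fun i _ => Fin.castLE h i)
  · intro i hi
    rw [Finset.mem_filter]
    exact ⟨Finset.mem_univ _, i, hi, rfl⟩
  · intro i _ i' _ hii
    exact Fin.castLE_injective h hii
  · intro j hj
    obtain ⟨i, hi, hij⟩ := (Finset.mem_filter.mp hj).2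
    exact ⟨i, hi, Fin.ext hij⟩

/-- unit balls with disjoint interiors -/
def IsPacking {n : ℕ} (B : Finset (EuclideanSpace ℝ (Fin n))) : Prop :=
  ∀ x ∈ B, ∀ y ∈ B, x ≠ y →
    Disjoint (interior (Metric.closedBall x 1)) (interior (Metric.closedBall y 1))

/-- colouring in which touching balls have different colours -/
def Colourable {n : ℕ} (B : Finset (EuclideanSpace ℝ (Fin n))) (m : ℕ) : Prop :=
  ∃ c : EuclideanSpace ℝ (Fin n) → Fin m, ∀ x ∈ B, ∀ y ∈ B, x ≠ y →
    (Metric.closedBall x 1 ∩ Metric.closedBall y 1).Nonempty → c x ≠ c y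

lemma pack_iff {n : ℕ} {x y : EuclideanSpace ℝ (Fin n)} :
    Disjoint (interior (Metric.closedBall x 1)) (interior (Metric.closedBall y 1)) ↔ 2 ≤ dist x y := by
  rw [interior_closedBall _ (by norm_num), interior_closedBall _ (by norm_num),
    disjoint_ball_ball_iff (by norm_num) (by norm_num)]
  norm_num

lemma touch_iff {n : ℕ} {x y : EuclideanSpace ℝ (Fin n)} :
    (Metric.closedBall x 1 ∩ Metric.closedBall y 1).Nonempty ↔ dist x y ≤ 2 := by
  rw [← Set.not_disjoint_iff_nonempty_inter,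
    disjoint_closedBall_closedBall_iff (by norm_num) (by norm_num), not_lt]
  norm_num

lemma core {m n r : ℕ} (hm : 5 ≤ m) (hn : 2 ^ m ≤ n)
    (h : ∀ B : Finset (EuclideanSpace ℝ (Fin n)), IsPacking B → Colourable B r) :
    ((2 : ℝ) ^ m) ^ 2 / (32768 * (m : ℝ) ^ 2) ≤ r := by
  classical
  obtain ⟨E, X, hE1, hXV, hX2, hXcard, hXT⟩ := comb m hm
  have hEpos : (0 : ℝ) < E := by exact_mod_cast hE1
  have hm0 : (0 : ℝ) < m := by
    have : 0 < m := by omega
    exact_mod_cast this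
  have hsq4 : ∀ {c : ℕ}, (2 : ℝ) ≤ Real.sqrt c ↔ 4 ≤ c := by
    intro c
    rw [Real.le_sqrt' (by norm_num)]
    constructor
    · intro h
      have : (4 : ℝ) ≤ c := by linarith
      exact_mod_cast this
    · intro h
      have : (4 : ℝ) ≤ c := by exact_mod_cast h
      linarith
  have hdist4 : ∀ x ∈ X, ∀ y ∈ X, x ≠ y → 4 ≤ (x ∆ y).card := by
    intro x hx y hy hne
    have h0 : (x ∆ y).card ≠ 0 := by
      intro h; rw [Finset.card_eq_zero] at h; exact hne (symmDiff_eq_bot.mp h)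
    have h2 : (x ∆ y).card ≠ 2 := hX2 x hx y hy
    have he := even_symmDiff (mem_V.mp (hXV hx)) (mem_V.mp (hXV hy))
    rw [Nat.even_iff] at he
    omega
  obtain ⟨c, hc⟩ := h (X.image (pt n)) (by
    intro a ha b hb hab
    obtain ⟨x, hx, rfl⟩ := Finset.mem_image.mp ha
    obtain ⟨y, hy, rfl⟩ := Finset.mem_image.mp hb
    have hne : x ≠ y := fun h => hab (by rw [h])
    rw [pack_iff, dist_pt hn]
    exact hsq4.mpr (hdist4 x hx y hy hne))
  have hclass : ∀ i : Fin r, ((X.filter (fun x => c (pt n x) = i)).card : ℝ) ≤ 8192 * (m : ℝ) ^ 2 * E := by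
    intro i
    refine (hXT _ (Finset.filter_subset _ _) ?_).le
    intro v hv u hu hadj
    obtain ⟨hvX, hvc⟩ := Finset.mem_filter.mp hv
    obtain ⟨huX, huc⟩ := Finset.mem_filter.mp hu
    have hadj' : (v ∆ u).card = 4 := hadj
    have hd : dist (pt n v) (pt n u) = 2 := by
      rw [dist_pt hn, hadj']
      rw [show ((4 : ℕ) : ℝ) = 2 ^ 2 by norm_num, Real.sqrt_sq (by norm_num)]
    have hne : pt n v ≠ pt n u := by
      intro h; rw [h, dist_self] at hd; norm_num at hd
    exact hc _ (Finset.mem_image_of_mem _ hvX) _ (Finset.mem_image_of_mem _ huX) hne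
      (touch_iff.mpr hd.le) (hvc.trans huc.symm)
  have hsum : (X.card : ℝ) = ∑ i : Fin r, ((X.filter (fun x => c (pt n x) = i)).card : ℝ) := by
    have := Finset.card_eq_sum_card_fiberwise (s := X) (t := (Finset.univ : Finset (Fin r)))
      (f := fun x => c (pt n x)) (fun _ _ => Finset.mem_univ _)
    rw [this]
    push_cast
    rfl
  have h1 : (X.card : ℝ) ≤ r * (8192 * (m : ℝ) ^ 2 * E) := by
    rw [hsum]
    calc _ ≤ ∑ _i : Fin r, 8192 * (m : ℝ) ^ 2 * (E : ℝ) := Finset.sum_le_sum fun i _ => hclass i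
      _ = _ := by rw [Finset.sum_const, Finset.card_univ, Fintype.card_fin, nsmul_eq_mul]
  rw [div_le_iff₀ (by positivity)]
  have h2 : (E : ℝ) * ((2 : ℝ) ^ m) ^ 2 ≤ E * (r * (32768 * (m : ℝ) ^ 2)) := by
    calc (E : ℝ) * ((2 : ℝ) ^ m) ^ 2 = 4 * (E * ((2 : ℝ) ^ m) ^ 2 / 4) := by ring
      _ ≤ 4 * (X.card : ℝ) := by linarith
      _ ≤ 4 * (r * (8192 * (m : ℝ) ^ 2 * E)) := by linarith
      _ = _ := by ring
  exact le_of_mul_le_mul_left h2 hEpos

theorem main {n r : ℕ} (hn : 2 ≤ n)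
    (h : ∀ B : Finset (EuclideanSpace ℝ (Fin n)), IsPacking B → Colourable B r) :
    1 / 300000 * ((n : ℝ) / Real.log n) ^ 2 ≤ r := by
  have hn0 : (0 : ℝ) < n := by
    have : 0 < n := by omega
    exact_mod_cast this
  have hlog2 := Real.log_two_gt_d9
  have hlog2' := Real.log_two_lt_d9
  have hn2 : (2 : ℝ) ≤ n := by exact_mod_cast hn
  have hlogn : Real.log 2 ≤ Real.log n := Real.log_le_log (by norm_num) hn2
  have hlpos : 0 < Real.log n := by linarith
  by_cases hbig : 32 ≤ n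
  · set m := Nat.log 2 n with hm
    have hm1 : 2 ^ m ≤ n := Nat.pow_log_le_self 2 (by omega)
    have hm2 : n < 2 ^ (m + 1) := Nat.lt_pow_succ_log_self (by norm_num) n
    have hm5 : 5 ≤ m := by
      rw [hm]
      exact (Nat.le_log_iff_pow_le (by norm_num) (by omega)).mpr (by omega)
    have hc := core hm5 hm1 h
    have hm0 : (0 : ℝ) < m := by
      have : 0 < m := by omega
      exact_mod_cast this
    have hm1' : ((2 : ℝ) ^ m) ≤ n := by exact_mod_cast hm1
    have hm2' : (n : ℝ) ≤ 2 * 2 ^ m := by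
      have : (n : ℝ) < (2 : ℝ) ^ (m + 1) := by exact_mod_cast hm2
      rw [pow_succ] at this; linarith
    have hml : (m : ℝ) * Real.log 2 ≤ Real.log n := by
      rw [← Real.log_pow]
      exact Real.log_le_log (by positivity) hm1'
    have hml' : (m : ℝ) ≤ Real.log n / Real.log 2 := by
      rw [le_div_iff₀ (by linarith)]; exact hml
    refine le_trans ?_ hc
    have e1 : 1 / 300000 * ((n : ℝ) / Real.log n) ^ 2 = (n : ℝ) ^ 2 / (300000 * (Real.log n) ^ 2) := by
      field_simp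
    rw [e1, div_le_div_iff₀ (by positivity) (by positivity)]
    have h1 : (n : ℝ) ^ 2 ≤ 4 * ((2 : ℝ) ^ m) ^ 2 := by
      have := pow_le_pow_left₀ hn0.le hm2' 2
      nlinarith
    have h2 : (m : ℝ) ^ 2 * (Real.log 2) ^ 2 ≤ (Real.log n) ^ 2 := by
      rw [← mul_pow]
      exact pow_le_pow_left₀ (by positivity) hml 2
    have h3 : (0.48 : ℝ) ≤ (Real.log 2) ^ 2 := by nlinarith
    have h4 : (m : ℝ) ^ 2 * 0.48 ≤ (Real.log n) ^ 2 :=
      le_trans (mul_le_mul_of_nonneg_left h3 (by positivity)) h2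
    calc (n : ℝ) ^ 2 * (32768 * (m : ℝ) ^ 2) ≤ 4 * ((2 : ℝ) ^ m) ^ 2 * (32768 * (m : ℝ) ^ 2) :=
          mul_le_mul_of_nonneg_right h1 (by positivity)
      _ = ((2 : ℝ) ^ m) ^ 2 * (131072 * (m : ℝ) ^ 2) := by ring
      _ ≤ ((2 : ℝ) ^ m) ^ 2 * (300000 * (Real.log n) ^ 2) := by
          refine mul_le_mul_of_nonneg_left ?_ (by positivity)
          nlinarith
  · have hr : 1 ≤ r := by
      obtain ⟨c, -⟩ := h {0} (by
        intro x hx y hy hne
        rw [Finset.mem_singleton] at hx hy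
        exact absurd (hx.trans hy.symm) hne)
      have := (c 0).isLt
      omega
    have hr' : (1 : ℝ) ≤ r := by exact_mod_cast hr
    have hn32 : (n : ℝ) ≤ 32 := by
      have : n ≤ 32 := by omega
      exact_mod_cast this
    have h1 : (n : ℝ) / Real.log n ≤ 50 := by
      rw [div_le_iff₀ hlpos]
      nlinarith
    have h2 : ((n : ℝ) / Real.log n) ^ 2 ≤ 50 ^ 2 :=
      pow_le_pow_left₀ (by positivity) h1 2
    nlinarith

end Pool.Agent.N334.CH
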